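import Mathlib

/-!
# A bigraph with a transitive fold group which is not left-cut-percolating
-/

set_option autoImplicit false

namespace Pool.Agent.Results.MP_d5e15b_co.NotPercolating

section defs

variable {A B : Type} (E : A → B → Prop)

/-- the graph on the left and right vertices -/
def graph : SimpleGraph (A ⊕ B) where
  Adj
    | .inl a, .inr b => E a b
    | .inr b, .inl a => E a b
    | _, _ => False
  symm := ⟨by
    rintro (a | b) (a' | b') h
    · exact h
    · exact h
    · exact h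
    · exact h⟩
  loopless := ⟨by
    rintro (a | b) h
    · exact h
    · exact h⟩

/-- `φ` is an automorphism of the bigraph (it consists of a permutation of each side). -/
def IsAut (φ : Equiv.Perm A × Equiv.Perm B) : Prop := ∀ a b, E (φ.1 a) (φ.2 b) ↔ E a b

/-- the action on all vertices -/
def act (φ : Equiv.Perm A × Equiv.Perm B) : A ⊕ B → A ⊕ B := Sum.map φ.1 φ.2

/-- the fixed vertices -/
def Fix (φ : Equiv.Perm A × Equiv.Perm B) : Set (A ⊕ B) := {v | act φ v = v}

/-- `φ` is a cut-involution. -/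
def IsCutInvolution (φ : Equiv.Perm A × Equiv.Perm B) : Prop :=
  IsAut E φ ∧ φ * φ = 1 ∧ ¬ ((graph E).induce (Fix φ)ᶜ).Preconnected

/-- `(φ, L)` is a fold: `L` is a union of components of `G - Fix(φ)`, and `L`, `Fix(φ)`, `φ(L)` partition the
vertices. -/
def IsFold (φ : Equiv.Perm A × Equiv.Perm B) (L : Set (A ⊕ B)) : Prop :=
  IsCutInvolution E φ ∧
    (Disjoint L (Fix φ) ∧ ∀ v ∈ L, ∀ w, w ∉ Fix φ → (graph E).Adj v w → w ∈ L) ∧
    (L ∪ Fix φ ∪ act φ '' L = Set.univ ∧ Disjoint L (act φ '' L) ∧ Disjoint (Fix φ) (act φ '' L))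

open Classical in
/-- the left-folding map on the left vertices -/
noncomputable def foldMap (φ : Equiv.Perm A × Equiv.Perm B) (L : Set (A ⊕ B)) (a : A) : A :=
  if Sum.inl a ∈ L then a else φ.1 a

/-- `G` is left-cut-percolating. -/
def LeftCutPercolating : Prop :=
  ∃ (m : ℕ) (U : ℕ → Set A), (∃ v, U 0 = {v}) ∧ U m = Set.univ ∧
    ∀ i < m, ∃ φ L, IsFold E φ L ∧ U (i + 1) = foldMap φ L ⁻¹' U i

/-- the group generated by the cut-involutions which are part of a fold -/
def foldGroup : Subgroup (Equiv.Perm A × Equiv.Perm B) := Subgroup.closure {φ | ∃ L, IsFold E φ L}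

variable {E}

lemma isFold_of {φ : Equiv.Perm A × Equiv.Perm B} {L : Set (A ⊕ B)} (h1 : IsAut E φ) (h2 : φ * φ = 1)
    (h3 : ∀ v ∈ L, act φ v ∉ L) (h4 : ∀ v, v ∉ L → act φ v ≠ v → act φ v ∈ L)
    (h5 : ∀ v ∈ L, ∀ w, (graph E).Adj v w → act φ w ≠ w → w ∈ L) (h6 : L.Nonempty) : IsFold E φ L := by
  have hinv : ∀ v, act φ (act φ v) = v := by
    rintro (a | b)
    · change Sum.inl ((φ * φ).1 a) = _
      rw [h2]
      rfl
    · change Sum.inr ((φ * φ).2 b) = _
      rw [h2]
      rfl
  have hL : ∀ v ∈ L, act φ v ≠ v := by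
    intro v hv he
    apply h3 v hv
    rw [he]
    exact hv
  refine ⟨⟨h1, h2, ?_⟩, ⟨?_, ?_⟩, ?_, ?_, ?_⟩
  · intro hc
    obtain ⟨x, hx⟩ := h6
    have hy : act φ x ∈ (Fix φ)ᶜ := by
      intro h
      change act φ (act φ x) = act φ x at h
      rw [hinv] at h
      exact hL x hx h.symm
    obtain ⟨p⟩ := hc ⟨x, hL x hx⟩ ⟨act φ x, hy⟩
    have key : ∀ (u v : ((Fix φ)ᶜ : Set (A ⊕ B))) (p : ((graph E).induce (Fix φ)ᶜ).Walk u v),
        (u : A ⊕ B) ∈ L → (v : A ⊕ B) ∈ L := by
      intro u v p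
      induction p with
      | nil => exact id
      | @cons u v w h q ih =>
        intro hu
        exact ih (h5 _ hu _ h v.2)
    exact h3 x hx (key _ _ p hx)
  · rw [Set.disjoint_left]
    exact fun v hv hf => hL v hv hf
  · intro v hv w hw h
    exact h5 v hv w h hw
  · rw [Set.eq_univ_iff_forall]
    intro v
    by_cases hv : v ∈ L
    · exact Or.inl (Or.inl hv)
    · by_cases hf : act φ v = v
      · exact Or.inl (Or.inr hf)
      · exact Or.inr ⟨act φ v, h4 v hv hf, hinv v⟩
  · rw [Set.disjoint_left]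
    rintro v hv ⟨w, hw, rfl⟩
    exact h3 w hw hv
  · rw [Set.disjoint_left]
    rintro v hv ⟨w, hw, rfl⟩
    have h : act φ (act φ w) = act φ w := hv
    rw [hinv] at h
    exact hL w hw h.symm

end defs

/-! ### The example -/

/-- the neighbourhoods of the 13 right vertices -/
def nb : Fin 13 → List (Fin 8) := ![[0, 2], [1, 3], [0, 1, 2], [1, 2, 3], [0, 2, 3], [0, 1, 3],
  [4, 6], [5, 7], [4, 5, 6], [5, 6, 7], [4, 6, 7], [4, 5, 7], [0, 1, 2, 3, 4, 5, 6, 7]]

/-- the edges -/
def E (a : Fin 8) (b : Fin 13) : Prop := a ∈ nb b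

instance (a : Fin 8) (b : Fin 13) : Decidable (E a b) := inferInstanceAs (Decidable (a ∈ nb b))

/-- the right vertex `r` has the neighbourhood `{u, w}` -/
def Par (u w : Fin 8) : Prop := u ≠ w ∧ ∃ r, E u r ∧ E w r ∧ ∀ x, E x r → x = u ∨ x = w

instance (u w : Fin 8) : Decidable (Par u w) :=
  inferInstanceAs (Decidable (u ≠ w ∧ ∃ r, E u r ∧ E w r ∧ ∀ x, E x r → x = u ∨ x = w))

/-- a right vertex with at most three neighbours is adjacent to both `u` and `v`, but they are not
partners -/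
def Near (u v : Fin 8) : Prop :=
  u ≠ v ∧ ¬ Par u v ∧ ∃ t w, E u t ∧ E v t ∧ ∀ x, E x t → x = u ∨ x = v ∨ x = w

instance (u v : Fin 8) : Decidable (Near u v) := inferInstanceAs (Decidable
  (u ≠ v ∧ ¬ Par u v ∧ ∃ t w, E u t ∧ E v t ∧ ∀ x, E x t → x = u ∨ x = v ∨ x = w))

section aut

variable {φ : Equiv.Perm (Fin 8) × Equiv.Perm (Fin 13)}

lemma par_map (h : IsAut E φ) {u w : Fin 8} (hp : Par u w) : Par (φ.1 u) (φ.1 w) := by
  obtain ⟨h0, r, h1, h2, h3⟩ := hp
  refine ⟨fun he => h0 (φ.1.injective he), φ.2 r, (h u r).2 h1, (h w r).2 h2, fun x hx => ?_⟩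
  have h4 : E (φ.1.symm x) r := by
    rw [← h (φ.1.symm x) r, Equiv.apply_symm_apply]
    exact hx
  rcases h3 _ h4 with h5 | h5
  · left
    rw [← h5, Equiv.apply_symm_apply]
  · right
    rw [← h5, Equiv.apply_symm_apply]

lemma invol (h : φ * φ = 1) (u : Fin 8) : φ.1 (φ.1 u) = u := by
  have : (φ * φ).1 u = u := by rw [h]; rfl
  exact this

lemma near_map (h : IsAut E φ) (h' : φ * φ = 1) {u v : Fin 8} (hp : Near u v) :
    Near (φ.1 u) (φ.1 v) := by
  obtain ⟨h0, hn, t, w, h1, h2, h3⟩ := hp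
  refine ⟨fun he => h0 (φ.1.injective he), fun hq => ?_, φ.2 t, φ.1 w, (h u t).2 h1, (h v t).2 h2,
    fun x hx => ?_⟩
  · have := par_map h hq
    rw [invol h', invol h'] at this
    exact hn this
  have h4 : E (φ.1.symm x) t := by
    rw [← h (φ.1.symm x) t, Equiv.apply_symm_apply]
    exact hx
  rcases h3 _ h4 with h5 | h5 | h5
  · left
    rw [← h5, Equiv.apply_symm_apply]
  · right; left
    rw [← h5, Equiv.apply_symm_apply]
  · right; right
    rw [← h5, Equiv.apply_symm_apply]

lemma near_facts : ∀ u v : Fin 8, Near u v → ∃ (t t' : Fin 13) (w : Fin 8),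
    E u t ∧ E v t ∧ E w t ∧ (∀ x, E x t → x = u ∨ x = v ∨ x = w) ∧ E u t' ∧ E v t' ∧ ¬ E w t' ∧
      Par u w ∧ ¬ Par v w := by decide +kernel

/-- `u` and `v` cannot be on different sides of a fold. -/
lemma no_mix {L : Set (Fin 8 ⊕ Fin 13)} (hF : IsFold E φ L) {u v : Fin 8} (hp : Near u v)
    (hu : Sum.inl u ∈ L) (hv : Sum.inl v ∉ L) : φ.1 v = v := by
  by_contra hvf
  obtain ⟨⟨hA, h2, -⟩, ⟨hd, hc⟩, -⟩ := hF
  obtain ⟨t, t', w, h1, h3, h4, h5, h6, h7, h8, h9, h10⟩ := near_facts u v hp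
  have huf : φ.1 u ≠ u := by
    intro he
    have : (Sum.inl u : Fin 8 ⊕ Fin 13) ∈ Fix φ := congrArg Sum.inl he
    exact Set.disjoint_left.1 hd hu this
  have hfix : ∀ t : Fin 13, E u t → E v t → φ.2 t = t := by
    intro t h1 h2
    by_contra ht
    have ht' : (Sum.inr t : Fin 8 ⊕ Fin 13) ∉ Fix φ := fun h => ht (Sum.inr_injective h)
    have hv' : (Sum.inl v : Fin 8 ⊕ Fin 13) ∉ Fix φ := fun h => hvf (Sum.inl_injective h)
    exact hv (hc _ (hc _ hu _ ht' h1) _ hv' h2)
  have e1 : ∀ x, E (φ.1 x) t ↔ E x t := by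
    intro x
    have := hA x t
    rwa [hfix t h1 h3] at this
  have e2 : ∀ x, E (φ.1 x) t' ↔ E x t' := by
    intro x
    have := hA x t'
    rwa [hfix t' h6 h7] at this
  have f1 : φ.1 u = v := by
    rcases h5 _ ((e1 u).2 h1) with h | h | h
    · exact absurd h huf
    · exact h
    · rw [← h] at h8
      exact absurd ((e2 u).2 h6) h8
  have f2 : φ.1 v = u := by
    rw [← f1, invol h2]
  have f3 : φ.1 w = w := by
    rcases h5 _ ((e1 w).2 h4) with h | h | h
    · rw [← f2] at h
      have := φ.1.injective h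
      rw [this] at h8
      exact absurd h7 h8
    · rw [← f1] at h
      have := φ.1.injective h
      rw [this] at h8
      exact absurd h6 h8
    · exact h
  have := par_map hA h9
  rw [f1, f3] at this
  exact h10 this

lemma near_symm {u v : Fin 8} (h : Near u v) : Near v u := by
  revert u v
  decide +kernel

lemma near_fold {L : Set (Fin 8 ⊕ Fin 13)} (hF : IsFold E φ L) {u v : Fin 8} (hp : Near u v) :
    Near (foldMap φ L u) (foldMap φ L v) := by
  have hA := hF.1.1
  have h2 := hF.1.2.1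
  unfold foldMap
  by_cases hu : Sum.inl u ∈ L
  · by_cases hv : Sum.inl v ∈ L
    · rw [if_pos hu, if_pos hv]
      exact hp
    · rw [if_pos hu, if_neg hv, no_mix hF hp hu hv]
      exact hp
  · by_cases hv : Sum.inl v ∈ L
    · rw [if_neg hu, if_pos hv, no_mix hF (near_symm hp) hv hu]
      exact hp
    · rw [if_neg hu, if_neg hv]
      exact near_map hA h2 hp

end aut

lemma not_percolating : ¬ LeftCutPercolating E := by
  rintro ⟨m, U, ⟨v0, h0⟩, hm, hstep⟩
  have key : ∀ i ≤ m, ∀ u v, Near u v → u ∈ U i → v ∉ U i := by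
    intro i
    induction i with
    | zero =>
      intro _ u v hp hu hv
      rw [h0] at hu hv
      exact hp.1 (hu.trans hv.symm)
    | succ i ih =>
      intro hi u v hp hu hv
      obtain ⟨φ, L, hF, hU⟩ := hstep i (by omega)
      rw [hU] at hu hv
      exact ih (by omega) _ _ (near_fold hF hp) hu hv
  have h1 : Near 0 1 := by decide +kernel
  exact key m le_rfl 0 1 h1 (hm ▸ Set.mem_univ _) (hm ▸ Set.mem_univ _)

/-- the permutation with given values -/
def mkPerm {n : ℕ} (f : Fin n → Fin n) (h : ∀ x, f (f x) = x) : Equiv.Perm (Fin n) := ⟨f, f, h, h⟩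

/-- the exchange of the two halves -/
def s1 : Equiv.Perm (Fin 8) × Equiv.Perm (Fin 13) :=
  (mkPerm ![4, 5, 6, 7, 0, 1, 2, 3] (by decide), mkPerm ![6, 7, 8, 9, 10, 11, 0, 1, 2, 3, 4, 5, 12] (by decide))

/-- the exchange of the two halves with a rotation -/
def s2 : Equiv.Perm (Fin 8) × Equiv.Perm (Fin 13) :=
  (mkPerm ![5, 6, 7, 4, 3, 0, 1, 2] (by decide), mkPerm ![7, 6, 9, 10, 11, 8, 1, 0, 5, 2, 3, 4, 12] (by decide))

/-- the first half -/
def LB : Fin 8 ⊕ Fin 13 → Bool
  | .inl a => decide (a < 4)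
  | .inr b => decide (b < 6)

lemma adj_iff (v w : Fin 8 ⊕ Fin 13) : (graph E).Adj v w ↔
    (match v, w with
    | .inl a, .inr b => decide (E a b)
    | .inr b, .inl a => decide (E a b)
    | _, _ => false) = true := by
  rcases v with a | b <;> rcases w with a' | b'
  · simp [graph]
  · simp [graph]
  · simp [graph]
  · simp [graph]

instance : DecidableRel (graph E).Adj := fun v w => decidable_of_iff _ (adj_iff v w).symm

lemma fold1 : IsFold E s1 {v | LB v = true} := by
  refine isFold_of ?_ ?_ ?_ ?_ ?_ ⟨Sum.inl 0, by decide⟩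
  · unfold IsAut
    decide +kernel
  · decide +kernel
  · have : ∀ v, LB v = true → ¬ LB (act s1 v) = true := by decide +kernel
    exact this
  · have : ∀ v, ¬ LB v = true → act s1 v ≠ v → LB (act s1 v) = true := by decide +kernel
    exact this
  · have : ∀ v, LB v = true → ∀ w, (graph E).Adj v w → act s1 w ≠ w → LB w = true := by
      decide +kernel
    exact this

lemma fold2 : IsFold E s2 {v | LB v = true} := by
  refine isFold_of ?_ ?_ ?_ ?_ ?_ ⟨Sum.inl 0, by decide⟩
  · unfold IsAut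
    decide +kernel
  · decide +kernel
  · have : ∀ v, LB v = true → ¬ LB (act s2 v) = true := by decide +kernel
    exact this
  · have : ∀ v, ¬ LB v = true → act s2 v ≠ v → LB (act s2 v) = true := by decide +kernel
    exact this
  · have : ∀ v, LB v = true → ∀ w, (graph E).Adj v w → act s2 w ≠ w → LB w = true := by
      decide +kernel
    exact this

lemma transitive : ∀ a a' : Fin 8, ∃ γ ∈ foldGroup E, γ.1 a = a' := by
  have m1 : s1 ∈ foldGroup E := Subgroup.subset_closure ⟨_, fold1⟩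
  have m2 : s2 ∈ foldGroup E := Subgroup.subset_closure ⟨_, fold2⟩
  have h : ∀ a a' : Fin 8, ∃ i : Fin 4, ∃ j : Fin 2, ((s1 * s2) ^ (i : ℕ) * s1 ^ (j : ℕ)).1 a = a' := by
    decide +kernel
  intro a a'
  obtain ⟨i, j, hij⟩ := h a a'
  exact ⟨_, mul_mem (pow_mem (mul_mem m1 m2) _) (pow_mem m1 _), hij⟩

lemma connected : (graph E).Connected := by
  have h12 : ∀ a : Fin 8, E a 12 := by decide +kernel
  have h : ∀ v, (graph E).Reachable v (Sum.inr 12) := by
    rintro (a | b)
    · exact SimpleGraph.Adj.reachable (show E a 12 from h12 a)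
    · obtain ⟨a, ha⟩ : ∃ a, E a b := by
        revert b
        decide +kernel
      exact (SimpleGraph.Adj.reachable (show (graph E).Adj (Sum.inr b) (Sum.inl a) from ha)).trans
        (SimpleGraph.Adj.reachable (show E a 12 from h12 a))
  exact { preconnected := fun v w => (h v).trans (h w).symm, nonempty := ⟨Sum.inl 0⟩ }

/-- **Theorem.** There is a connected finite bigraph whose fold group acts transitively on the left vertices
but which is not left-cut-percolating. -/
theorem result : ∃ E : Fin 8 → Fin 13 → Prop, (graph E).Connected ∧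
    (∀ a a' : Fin 8, ∃ γ ∈ foldGroup E, γ.1 a = a') ∧ ¬ LeftCutPercolating E :=
  ⟨E, connected, transitive, not_percolating⟩

end Pool.Agent.Results.MP_d5e15b_co.NotPercolating
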